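import Pool.Agent.H995R3.Types
import Pool.Agent.W872.CC.Defs

set_option autoImplicit false

/-!
# Choose has a winning strategy after the Levy collapse of a measurable cardinal
-/

namespace Pool.Agent.V8H48.CU

open Cardinal Pool.Agent.Helper669.Forcing Pool.Agent.Helper669.K Pool.Agent.H995R3
open Pool.Agent.W872.CC (fiff SameSet SameSeq Keeps hist InCur)

section gen

variable {P : Type} [Preorder P]

/-- the generic filter contains `c` -/
def inG (c : P) : Set P := meets {q | q ≤ c}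

theorem mem_inG {c p : P} (h : p ≤ c) : p ∈ inG c := meets_of_mem h

theorem inG_ext {c p : P} (h : p ∈ inG c) : ∃ r ≤ p, r ≤ c := by
  obtain ⟨r, hr, s, hs, hrs⟩ := h p le_rfl
  exact ⟨r, hr, hrs.trans hs⟩

theorem down_inG (c : P) : Down (inG c) := down_meets _

/-- `φ` or its negation -/
def lit (b : Bool) (φ : Set P) : Set P := if b then φ else fnot φ

theorem down_lit (b : Bool) {φ : Set P} (h : Down φ) : Down (lit b φ) := by
  cases b
  · exact down_fnot _
  · exact h

theorem exists_lit (p : P) (φ : Set P) : ∃ q ≤ p, ∃ b, q ∈ lit b φ := by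
  by_cases h : ∃ q ≤ p, q ∈ φ
  · obtain ⟨q, hq, h⟩ := h
    exact ⟨q, hq, true, h⟩
  · push Not at h
    exact ⟨p, le_rfl, false, h⟩

theorem meets_of_dense {N : Set P} {p : P} (h : ∀ q ≤ p, ∃ r ≤ q, r ∈ meets N) : p ∈ meets N := by
  intro q hq
  obtain ⟨r, hr, h1⟩ := h q hq
  obtain ⟨t, ht, s, hs, hts⟩ := h1 r le_rfl
  exact ⟨t, ht.trans hr, s, hs, hts⟩

theorem fimp_meets {φ : Set P} {N : Set P} {p : P} (h : p ∈ fimp φ (meets N)) (hd : Down φ)
    (hp : p ∈ φ) : p ∈ meets N := by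
  rw [mem_fimp] at h
  exact meets_of_dense fun q hq => h q hq (hd _ hp _ hq)

end gen

variable {κ : Cardinal.{0}} {K W : Type} [LinearOrder K] {U : Ultrafilter K}

/-- On a set in `U`, `α ∈ A` has the truth value `b` if `f α` is in the generic filter; for a
fixed set -/
def decB (B : Set K) (f : K → LC W K) (A : K → Set (LC W K)) (b : Bool) : Set (LC W K) :=
  fall fun α : K => fall fun _ : α ∈ B => fimp (inG (f α)) (lit b (meets (A α)))

theorem down_decB (B : Set K) (f : K → LC W K) (A : K → Set (LC W K)) (b : Bool) :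
    Down (decB B f A b) := down_fall fun _ => down_fall fun _ => down_fimp _ _

/-- On a set in `U`, `α ∈ A` has the truth value `b` if `f α` is in the generic filter. -/
def dec (U : Ultrafilter K) (f : K → LC W K) (A : K → Set (LC W K)) (b : Bool) : Set (LC W K) :=
  fex fun B : {B : Set K // B ∈ U} => decB B.1 f A b

/-- `f'` is a possible next state -/
def Good (U : Ultrafilter K) (f : K → LC W K) (A : K → Set (LC W K)) (f' : K → LC W K) :
    Set (LC W K) :=
  fand (fground (∀ᶠ α in (U : Filter K), f' α ≤ f α))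
    (fand (fex fun s : {s : LC W K // Ty U s f'} => inG s.1) (fex fun b : Bool => dec U f' A b))

theorem down_Good (f : K → LC W K) (A : K → Set (LC W K)) (f' : K → LC W K) :
    Down (Good U f A f') := down_fand (down_fground _) (down_fand (down_fex _) (down_fex _))

/-- the empty condition -/
def emp (W K : Type) [LinearOrder K] : LC W K := ⟨∅, Set.countable_empty, by simp, by simp⟩

/-- the state after the moves in the list -/
def St (U : Ultrafilter K) : List (K → Set (LC W K)) → (K → LC W K) → Set (LC W K)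
  | [], f => fground (f = fun _ => emp W K)
  | A :: l, f' => fex fun f : K → LC W K => fand (St U l f) (fand (Good U f A f')
      (fall fun g : K → LC W K => fall fun _ : WellOrderingRel g f' => fnot (Good U f A g)))

theorem down_St (l : List (K → Set (LC W K))) (f : K → LC W K) : Down (St U l f) := by
  cases l with
  | nil => exact down_fground _
  | cons A l => exact down_fex _

theorem St_uniq {l : List (K → Set (LC W K))} {f g : K → LC W K} {p : LC W K}
    (hf : p ∈ St U l f) (hg : p ∈ St U l g) : f = g := by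
  induction l generalizing p f g with
  | nil => exact (show f = _ from hf).trans (show g = _ from hg).symm
  | cons A l ih =>
    obtain ⟨q, hq, f1, h1, h2, h3⟩ := mem_fex.1 hf p le_rfl
    obtain ⟨r, hr, g1, k1, k2, k3⟩ := mem_fex.1 (down_St _ _ _ hg _ hq) q le_rfl
    have := ih (down_St _ _ _ h1 _ hr) k1
    subst this
    rcases trichotomous_of WellOrderingRel f g with h | h | h
    · exact absurd h2 (k3 f h r le_rfl ∘ fun h2 => down_Good _ _ _ _ h2 _ hr)
    · exact h
    · exact absurd k2 (h3 g h r hr)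

theorem decB_congr {B : Set K} {f : K → LC W K} {A A' : K → Set (LC W K)} {b : Bool}
    {p : LC W K} (hA : p ∈ SameSet A A') (h : p ∈ decB B f A b) : p ∈ decB B f A' b := by
  intro α hα
  have h1 := h α hα
  rw [mem_fimp] at h1 ⊢
  intro q hq hi
  obtain ⟨r, hr, h2⟩ := h1 q hq hi
  have hrp := hr.trans hq
  refine ⟨r, hr, ?_⟩
  obtain ⟨e1, e2⟩ := hA α
  cases b with
  | true => exact fimp_meets (down_fimp _ _ _ e1 _ hrp) (down_meets _) h2
  | false =>
    intro t ht h3
    exact h2 t ht (fimp_meets (down_fimp _ _ _ e2 _ (ht.trans hrp)) (down_meets _) h3)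

theorem dec_congr {f : K → LC W K} {A A' : K → Set (LC W K)} {b : Bool}
    {p : LC W K} (hA : p ∈ SameSet A A') (h : p ∈ dec U f A b) : p ∈ dec U f A' b := by
  refine mem_fex.2 fun q hq => ?_
  obtain ⟨r, hr, B, hB⟩ := mem_fex.1 h q hq
  have hd : Down (SameSet A A') := down_fall fun _ => down_fand (down_fimp _ _) (down_fimp _ _)
  exact ⟨r, hr, B, decB_congr (hd _ hA _ (hr.trans hq)) hB⟩

theorem down_SameSet (A A' : K → Set (LC W K)) : Down (SameSet A A') :=
  down_fall fun _ => down_fand (down_fimp _ _) (down_fimp _ _)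

theorem Good_congr {f f' : K → LC W K} {A A' : K → Set (LC W K)} {p : LC W K}
    (hA : p ∈ SameSet A A') (h : p ∈ Good U f A f') : p ∈ Good U f A' f' := by
  refine ⟨h.1, h.2.1, mem_fex.2 fun q hq => ?_⟩
  obtain ⟨r, hr, b, hb⟩ := mem_fex.1 h.2.2 q hq
  exact ⟨r, hr, b, dec_congr (down_SameSet _ _ _ hA _ (hr.trans hq)) hb⟩

theorem SameSet_symm {L : Type} {P : Type} [Preorder P] {A A' : L → Set P} {p : P}
    (hA : p ∈ SameSet A A') : p ∈ SameSet A' A := fun a => ⟨(hA a).2, (hA a).1⟩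

theorem St_congr {l l' : List (K → Set (LC W K))} {f : K → LC W K} {p : LC W K}
    (hl : List.Forall₂ (fun S T => p ∈ SameSet S T) l l') (h : p ∈ St U l f) :
    p ∈ St U l' f := by
  induction l generalizing l' f p with
  | nil =>
    cases hl
    exact h
  | cons A l ih =>
    cases hl with
    | @cons _ A' _ l' hA hl =>
    refine mem_fex.2 fun q hq => ?_
    obtain ⟨r, hr, f1, h1, h2, h3⟩ := mem_fex.1 h q hq
    have hrp := hr.trans hq
    have hA' := down_SameSet _ _ _ hA _ hrp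
    refine ⟨r, hr, f1, ih ?_ h1, Good_congr hA' h2, fun g hg t ht h4 => ?_⟩
    · exact hl.imp fun S T h => down_SameSet _ _ _ h _ hrp
    · exact h3 g hg t ht (Good_congr (SameSet_symm (down_SameSet _ _ _ hA' _ ht)) h4)

section

variable (hN : Nrm κ U) (h0 : ℵ₀ < κ) (hW : #W < κ)

include hN h0 hW in
theorem exists_good {f : K → LC W K} {s p : LC W K} (hs : Ty U s f) (hp : p ≤ s)
    (A : K → Set (LC W K)) : ∃ q ≤ p, ∃ f', q ∈ Good U f A f' := by
  have h1 : ∀ α, ∃ t ≤ add p (f α), ∃ b, t ∈ lit b (meets (A α)) := fun α => exists_lit _ _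
  choose t ht b hb using h1
  obtain ⟨b0, hb0⟩ := const_small hN (T := Bool) (by
    rw [mk_bool]
    exact_mod_cast (natCast_lt_aleph0 (n := 2)).trans h0) b
  obtain ⟨s', hs'⟩ := exists_ty hN h0 hW t
  have h2 := hs.add hN h0 hp
  have h3 := hs.add_le hN h0 hp
  have h4 : s' ≤ p := Ty.le h2 hs' (Filter.Eventually.of_forall ht)
  refine ⟨s', h4, t, ?_, ?_, ?_⟩
  · filter_upwards [h3] with α hα
    exact (ht α).trans hα.2
  · exact mem_fex_of_mem ⟨s', hs'⟩ (down_inG _) (mem_inG le_rfl)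
  · refine mem_fex_of_mem b0 (down_fex _) ?_
    refine mem_fex_of_mem ⟨{α | b α = b0}, hb0⟩ (down_decB _ _ _ _) ?_
    intro α hα
    rw [mem_fimp]
    intro q hq hi
    obtain ⟨r, hr, hr2⟩ := inG_ext hi
    refine ⟨r, hr, down_lit _ (down_meets _) _ ?_ _ hr2⟩
    have := hb α
    rwa [show b α = b0 from hα] at this

include hN h0 hW in
/-- the next state -/
theorem exists_next {l : List (K → Set (LC W K))} {f : K → LC W K} {s p : LC W K}
    (hf : p ∈ St U l f) (hs : Ty U s f) (hp : p ≤ s) (A : K → Set (LC W K)) :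
    ∃ q ≤ p, ∃ f' s', q ∈ St U (A :: l) f' ∧ Ty U s' f' ∧ q ≤ s' ∧
      (∀ᶠ α in (U : Filter K), f' α ≤ f α) ∧ ∃ b, ∃ B ∈ U, q ∈ decB B f' A b := by
  have hne : {f' : K → LC W K | ∃ q ≤ p, q ∈ Good U f A f'}.Nonempty := by
    obtain ⟨q, hq, f', h⟩ := exists_good hN h0 hW hs hp A
    exact ⟨f', q, hq, h⟩
  have hwf : WellFounded (WellOrderingRel (α := K → LC W K)) := IsWellFounded.wf
  obtain ⟨f', ⟨q, hq, hg⟩, hmin⟩ := hwf.has_min _ hne
  obtain ⟨q1, hq1, ⟨s', hs'⟩, h1⟩ := mem_fex.1 hg.2.1 q le_rfl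
  obtain ⟨q2, hq2, hq2s⟩ := inG_ext h1
  have hq2q := hq2.trans hq1
  obtain ⟨q3, hq3, b, h3⟩ := mem_fex.1 hg.2.2 q2 hq2q
  obtain ⟨q4, hq4, ⟨B, hB⟩, h4⟩ := mem_fex.1 h3 q3 le_rfl
  have hq4q : q4 ≤ q := hq4.trans (hq3.trans hq2q)
  refine ⟨q4, hq4q.trans hq, f', s', ?_, hs', (hq4.trans hq3).trans hq2s, hg.1, b, B, hB, h4⟩
  refine mem_fex_of_mem f ?_ ⟨down_St _ _ _ hf _ (hq4q.trans hq), down_Good _ _ _ _ hg _ hq4q, ?_⟩
  · exact down_fand (down_St _ _) (down_fand (down_Good _ _ _)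
      (down_fall fun _ => down_fall fun _ => down_fnot _))
  · intro g hgf r hr h5
    exact hmin g ⟨r, hr.trans (hq4q.trans hq), h5⟩ hgf

/-- The states of a play. -/
structure Play (U : Ultrafilter K) (A : ℕ → K → Set (LC W K)) where
  p : ℕ → LC W K
  f : ℕ → K → LC W K
  s : ℕ → LC W K
  b : ℕ → Bool
  B : ℕ → Set K
  hp : ∀ n, p (n + 1) ≤ p n
  st : ∀ n, p n ∈ St U (hist A n) (f n)
  ty : ∀ n, Ty U (s n) (f n)
  ps : ∀ n, p n ≤ s n
  hf : ∀ n, ∀ᶠ α in (U : Filter K), f (n + 1) α ≤ f n α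
  hB : ∀ n, B n ∈ U
  hd : ∀ n, p (n + 1) ∈ decB (B n) (f (n + 1)) (A n) (b n)

include hN h0 hW in
theorem exists_play (A : ℕ → K → Set (LC W K)) (p0 : LC W K) :
    ∃ L : Play U A, L.p 0 = p0 := by
  let S := {x : ℕ × LC W K × (K → LC W K) × LC W K //
    x.2.1 ∈ St U (hist A x.1) x.2.2.1 ∧ Ty U x.2.2.2 x.2.2.1 ∧ x.2.1 ≤ x.2.2.2}
  have step : ∀ x : S, ∃ y : S, y.1.1 = x.1.1 + 1 ∧ y.1.2.1 ≤ x.1.2.1 ∧
      (∀ᶠ α in (U : Filter K), y.1.2.2.1 α ≤ x.1.2.2.1 α) ∧
      ∃ b, ∃ B ∈ U, y.1.2.1 ∈ decB B y.1.2.2.1 (A x.1.1) b := by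
    rintro ⟨⟨n, p, f, s⟩, h1, h2, h3⟩
    obtain ⟨q, hq, f', s', k1, k2, k3, k4, k5⟩ := exists_next hN h0 hW h1 h2 h3 (A n)
    exact ⟨⟨⟨n + 1, q, f', s'⟩, k1, k2, k3⟩, rfl, hq, k4, k5⟩
  choose nx n1 n2 n3 b B hB hd using step
  have hs0 : Ty U (emp W K) (fun _ => emp W K) := by
    refine Filter.Eventually.of_forall fun α => ?_
    ext x
    simp [cut, emp]
  let x0 : S := ⟨⟨0, p0, fun _ => emp W K, emp W K⟩, rfl, hs0, by
    rw [LC.le_iff]
    exact Set.empty_subset _⟩
  let x : ℕ → S := fun n => Nat.rec x0 (fun _ y => nx y) n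
  have hx : ∀ n, (x n).1.1 = n := by
    intro n
    induction n with
    | zero => rfl
    | succ n ih => exact (n1 (x n)).trans (by rw [ih])
  refine ⟨⟨fun n => (x n).1.2.1, fun n => (x n).1.2.2.1, fun n => (x n).1.2.2.2,
    fun n => b (x n), fun n => B (x n), fun n => n2 (x n), fun n => ?_, fun n => (x n).2.2.1,
    fun n => (x n).2.2.2, fun n => n3 (x n), fun n => hB (x n), fun n => ?_⟩, rfl⟩
  · have := (x n).2.1
    rwa [hx n] at this
  · have := hd (x n)
    rwa [hx n] at this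

variable {A : ℕ → K → Set (LC W K)} (L : Play U A)

/-- a lower bound of the conditions of the play -/
noncomputable def Play.q : LC W K := iU L.p L.hp

theorem Play.q_le (n : ℕ) : L.q ≤ L.p n := iU_le _ _ n

include hN h0 in
theorem Play.ext (r : LC W K) (hr : r ≤ L.q) : ∀ᶠ α in (U : Filter K),
    (∀ n, α ∈ L.B n) ∧ ∃ v ≤ r, ∀ n, v ≤ L.f n α := by
  obtain ⟨H, hH1, hH2⟩ := exists_lim hN h0 L.f L.hf
  have hs : ∀ n, L.s (n + 1) ≤ L.s n := fun n => Ty.le (L.ty n) (L.ty (n + 1)) (L.hf n)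
  have hT := hH2 L.s (iU L.s hs) L.ty rfl
  have hle : r ≤ iU L.s hs := by
    refine hr.trans ?_
    intro x hx
    obtain ⟨n, hn⟩ := Set.mem_iUnion.1 hx
    exact Set.mem_iUnion.2 ⟨n, L.ps n hn⟩
  have hcnt : #ℕ < κ := by
    rw [Cardinal.mk_nat]
    exact h0
  have e1 := hN.comp hcnt (fun (n : ℕ) α => H α ≤ L.f n α) hH1
  have e2 := hN.comp hcnt (fun (n : ℕ) α => α ∈ L.B n) L.hB
  filter_upwards [hT.add_le hN h0 hle, e1, e2] with α h1 h2 h3
  exact ⟨h3, _, h1.1, fun n => h1.2.trans (h2 n)⟩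

/-! ### The strategy -/

section strat

variable {E : Type} (i : K → E)

/-- Choose takes the part in the set of Cut, if this is decided by the state. -/
def strat (U : Ultrafilter K) (i : K → E) : List (E → Set (LC W K)) → Set (LC W K)
  | [] => ∅
  | A :: l => fex fun f' : K → LC W K => fand
      (St U (List.map (fun A => A ∘ i) (A :: l)) f') (dec U f' (A ∘ i) true)

theorem down_strat (l : List (E → Set (LC W K))) : Down (strat U i l) := by
  cases l with
  | nil => exact fun p hp => absurd hp (Set.notMem_empty _)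
  | cons A l => exact down_fex _

theorem SameSeq_refl (l : List (E → Set (LC W K))) (p : LC W K) : p ∈ SameSeq l l := by
  have : ∀ l : List (E → Set (LC W K)), List.Forall₂ (fun S T => p ∈ SameSet S T) l l := by
    intro l
    induction l with
    | nil => exact List.Forall₂.nil
    | cons A l ih =>
      refine List.Forall₂.cons (fun a => ⟨?_, ?_⟩) ih <;>
      · rw [mem_fimp]
        exact fun q _ h => ⟨q, le_rfl, h⟩
  exact this l

theorem map_congr {l l' : List (E → Set (LC W K))} {p : LC W K} (h : p ∈ SameSeq l l') :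
    List.Forall₂ (fun S T => p ∈ SameSet S T) (l.map fun A => A ∘ i) (l'.map fun A => A ∘ i) := by
  rw [List.forall₂_map_left_iff, List.forall₂_map_right_iff]
  exact List.Forall₂.imp (fun S T h a => h (i a)) h

theorem hist_map (A : ℕ → E → Set (LC W K)) (n : ℕ) :
    (hist A n).map (fun A => A ∘ i) = hist (fun n => A n ∘ i) n := by
  induction n with
  | zero => rfl
  | succ n ih =>
    rw [hist, hist, List.map_cons, ih]

theorem down_Keeps (σ : List (E → Set (LC W K)) → Set (LC W K)) (l) : Down (Keeps σ l) :=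
  down_fex _

theorem keeps_of (l : List (E → Set (LC W K))) {p : LC W K} (h : p ∈ strat U i l) :
    p ∈ Keeps (strat U i) l := by
  refine mem_fex.2 fun q hq => ⟨q, le_rfl, l, meets_of_mem (down_strat i l _ h _ hq),
    SameSeq_refl l q⟩

include hN h0 in
theorem Play.inCur {A : ℕ → E → Set (LC W K)} (L : Play U (fun n => A n ∘ i)) {α : K}
    {v : LC W K} (hv : v ≤ L.q) (hB : ∀ n, α ∈ L.B n) (hf : ∀ n, v ≤ L.f n α) (n : ℕ) :
    v ∈ InCur (strat U i) A n (i α) := by
  intro m _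
  have hdm : v ∈ decB (L.B m) (L.f (m + 1)) (A m ∘ i) (L.b m) :=
    down_decB _ _ _ _ _ (L.hd m) _ (hv.trans (L.q_le _))
  have hst : v ∈ St U (List.map (fun A => A ∘ i) (hist A (m + 1))) (L.f (m + 1)) := by
    rw [hist_map]
    exact down_St _ _ _ (L.st (m + 1)) _ (hv.trans (L.q_le _))
  have hstr : ∀ b, L.b m = b → v ∈ lit b (meets (A m (i α))) := by
    intro b hb
    have h1 := hdm α (hB m)
    rw [mem_fimp, hb] at h1
    cases b with
    | true =>
      refine meets_of_dense fun q hq => h1 q hq (mem_inG (hq.trans (hf _)))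
    | false =>
      intro q hq hcon
      obtain ⟨r, hr, h2⟩ := h1 q hq (mem_inG (hq.trans (hf _)))
      exact h2 r le_rfl (down_meets _ _ hcon _ hr)
  cases hb : L.b m with
  | true =>
    have h1 : v ∈ meets (A m (i α)) := hstr true hb
    have h2 : v ∈ Keeps (strat U i) (hist A (m + 1)) := by
      refine keeps_of i _ ?_
      refine mem_fex_of_mem (L.f (m + 1)) (down_fand (down_St _ _) (down_fex _)) ⟨hst, ?_⟩
      refine mem_fex_of_mem ⟨L.B m, L.hB m⟩ (down_decB _ _ _ _) ?_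
      rwa [hb] at hdm
    refine ⟨?_, ?_⟩
    · rw [mem_fimp]
      exact fun q hq _ => ⟨q, le_rfl, down_Keeps _ _ _ h2 _ hq⟩
    · rw [mem_fimp]
      exact fun q hq _ => ⟨q, le_rfl, down_meets _ _ h1 _ hq⟩
  | false =>
    have h1 : v ∈ fnot (meets (A m (i α))) := hstr false hb
    have h2 : v ∈ fnot (Keeps (strat U i) (hist A (m + 1))) := by
      intro q hq hcon
      obtain ⟨q1, hq1, l', h3, h4⟩ := mem_fex.1 hcon q le_rfl
      obtain ⟨q2, hq2, h5⟩ := exists_of_meets (down_strat i l') h3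
      have h4' : q2 ∈ SameSeq l' (hist A (m + 1)) :=
        List.Forall₂.imp (fun S T h => (down_fall fun _ => down_fand (down_fimp _ _)
          (down_fimp _ _)) _ h _ hq2) h4
      cases l' with
      | nil => exact absurd h5 (Set.notMem_empty _)
      | cons A' l' =>
        obtain ⟨q3, hq3, f', h6, h7⟩ := mem_fex.1 h5 q2 le_rfl
        obtain ⟨q4, hq4, ⟨B', hB'⟩, h8⟩ := mem_fex.1 h7 q3 le_rfl
        have hq4v : q4 ≤ v := hq4.trans (hq3.trans (hq2.trans (hq1.trans hq)))
        have hq42 : q4 ≤ q2 := hq4.trans hq3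
        have h4'' : q4 ∈ SameSeq (A' :: l') (hist A (m + 1)) :=
          List.Forall₂.imp (fun S T h => (down_fall fun _ => down_fand (down_fimp _ _)
            (down_fimp _ _)) _ h _ hq42) h4'
        have h9 := St_congr (map_congr i h4'') (down_St _ _ _ h6 _ hq4)
        have h10 := St_uniq h9 (down_St _ _ _ hst _ hq4v)
        subst h10
        have hA' : q4 ∈ SameSet A' (A m) := by
          have h11 : List.Forall₂ (fun S T => q4 ∈ SameSet S T) (A' :: l') (A m :: hist A m) :=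
            h4''
          exact (List.forall₂_cons.1 h11).1
        have hq4s : q4 ≤ L.s (m + 1) := hq4v.trans (hv.trans ((L.q_le _).trans (L.ps _)))
        obtain ⟨β, ⟨k1, k2⟩, k3, k4⟩ := (((L.ty (m + 1)).add_le hN h0 hq4s).and
          (Filter.inter_mem hB' (L.hB m) : ∀ᶠ β in (U : Filter K), β ∈ B' ∧ β ∈ L.B m)).exists
        obtain ⟨t, ht, h12⟩ := mem_fimp.1 (h8 β k3) _ k1 (mem_inG k2)
        have h13 : t ∈ meets (A m (i β)) := by
          refine fimp_meets (N := A m (i β)) (down_fimp _ _ _ (hA' (i β)).1 _ (ht.trans k1))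
            (down_meets _) h12
        have h14 := hdm β k4
        rw [mem_fimp, hb] at h14
        obtain ⟨t', ht', h15⟩ := h14 t (ht.trans (k1.trans hq4v)) (mem_inG (ht.trans k2))
        exact h15 t' le_rfl (down_meets _ _ h13 _ ht')
    refine ⟨?_, ?_⟩
    · rw [mem_fimp]
      exact fun q hq h => absurd h (h1 q hq)
    · rw [mem_fimp]
      exact fun q hq h => absurd h (h2 q hq)

include hN h0 hW in
theorem chooseWins (hi : Function.Injective i) (A : ℕ → E → Set (LC W K)) (p : LC W K) :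
    p ∈ Pool.Agent.W872.CC.ChooseWins (strat U i) A := by
  refine mem_fex.2 fun q hq => ?_
  obtain ⟨L, hL⟩ := exists_play hN h0 hW (fun n => A n ∘ i) q
  obtain ⟨α, h1, v, hv, h2⟩ := (L.ext hN h0 L.q le_rfl).exists
  obtain ⟨β, ⟨h3, w, hw, h4⟩, h5⟩ := ((L.ext hN h0 v hv).and (hN.big α)).exists
  have hwq : w ≤ q := hw.trans (hv.trans ((L.q_le 0).trans hL.le))
  refine ⟨w, hwq, i α, ?_⟩
  refine mem_fex_of_mem (i β) ?_ ⟨?_, ?_⟩
  · exact down_fand (down_fground _) (down_fall fun _ => down_fand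
      (down_fall fun _ => down_fall fun _ => down_fand (down_fimp _ _) (down_fimp _ _))
      (down_fall fun _ => down_fall fun _ => down_fand (down_fimp _ _) (down_fimp _ _)))
  · exact fun h => h5.ne (hi h)
  · intro n
    exact ⟨L.inCur hN h0 i (hw.trans hv) h1 (fun n => hw.trans (h2 n)) n,
      L.inCur hN h0 i (hw.trans hv) h3 h4 n⟩

end strat

include hN h0 hW in
/-- Choose has a winning strategy on every ground model set at least as large as `κ`. -/
theorem hasStrategy {E : Type} (i : K → E) (hi : Function.Injective i) (p : LC W K) :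
    p ∈ Pool.Agent.W872.CC.ChooseHasStrategy (LC W K) E :=
  mem_fex_of_mem (strat U i) (down_fall fun _ => down_fex _)
    fun A => chooseWins hN h0 hW i hi A p

end

theorem hasStrategyLe {P E : Type} [Preorder P] {p : P}
    (h : p ∈ Pool.Agent.W872.CC.ChooseHasStrategy P E) :
    p ∈ Pool.Agent.W872.CC.ChooseHasStrategyLe P E := by
  refine mem_fex.2 fun q hq => ?_
  obtain ⟨r, hr, σ, hσ⟩ := mem_fex.1 h q hq
  refine ⟨r, hr, σ, fun A => ?_⟩
  have h1 := hσ A
  have hd : ∀ n a, Down (InCur σ A n a) := fun n a =>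
    down_fall fun _ => down_fall fun _ => down_fand (down_fimp _ _) (down_fimp _ _)
  refine ⟨fun n => mem_fex.2 fun t ht => ?_, mem_fex.2 fun t ht => ?_⟩
  · obtain ⟨t1, ht1, a, h2⟩ := mem_fex.1 h1 t ht
    obtain ⟨t2, ht2, b, h3, h4⟩ := mem_fex.1 h2 t1 le_rfl
    exact ⟨t2, ht2.trans ht1, a, mem_fex_of_mem b (down_fand (down_fground _)
      (down_fand (hd _ _) (hd _ _))) ⟨h3, h4 n⟩⟩
  · obtain ⟨t1, ht1, a, h2⟩ := mem_fex.1 h1 t ht
    obtain ⟨t2, ht2, b, h3, h4⟩ := mem_fex.1 h2 t1 le_rfl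
    exact ⟨t2, ht2.trans ht1, a, fun n => (h4 n).1⟩

end Pool.Agent.V8H48.CU
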